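import Pool.Agent.H664.FH.Stm2
import Pool.Agent.H190.FH.FSolve

/-! Project FH of helper664, job FSOLVEI: as H190/FH/FSolve.lean, with an irrational quotient of two
coordinates of `α` in the Kronecker step. -/

set_option autoImplicit false

namespace Pool.Agent.H282.FH

open Filter Topology Metric Set Pool.Agent.H664.FH
open Pool.Agent.H190.FH (conv point norm_Qp norm_dot schwarz step Qp)

theorem kron_dense {n : ℕ} {α : Fin n → ℝ} {i1 i0 : Fin n} (hirr : Irrational (α i0 / α i1))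
    (x η : ℝ) (hη : 0 < η) :
    ∃ a b : ℤ, |2 * Real.pi * ((a : ℝ) * α i0 + (b : ℝ) * α i1) - x| < η := by
  have hpi := Real.pi_pos
  have hirr2 : Irrational ((2 * Real.pi * α i0) / (2 * Real.pi * α i1)) := by
    rw [mul_div_mul_left _ _ (by positivity)]
    exact hirr
  have hd := dense_addSubgroupClosure_pair_iff.mpr hirr2
  obtain ⟨y, hy, hyx⟩ := Metric.dense_iff.mp hd x η hη
  rw [SetLike.mem_coe, AddSubgroup.mem_closure_pair] at hyx
  obtain ⟨a, b, hab⟩ := hyx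
  refine ⟨a, b, ?_⟩
  rw [mem_ball, Real.dist_eq] at hy
  rw [← hab] at hy
  simp only [zsmul_eq_mul] at hy
  convert hy using 2
  ring

theorem kron_net {n : ℕ} {α : Fin n → ℝ} {i1 i0 : Fin n} (hα : Irrational (α i0 / α i1)) (Θ η : ℝ) (hη : 0 < η) :
    ∃ C : ℝ, ∀ x ∈ Icc (-Θ) Θ, ∃ a b : ℤ, |(a : ℝ)| ≤ C ∧ |(b : ℝ)| ≤ C ∧
      |2 * Real.pi * ((a : ℝ) * α i0 + (b : ℝ) * α i1) - x| ≤ η := by
  refine isCompact_Icc.induction_on (p := fun s => ∃ C : ℝ, ∀ x ∈ s, ∃ a b : ℤ,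
    |(a : ℝ)| ≤ C ∧ |(b : ℝ)| ≤ C ∧
      |2 * Real.pi * ((a : ℝ) * α i0 + (b : ℝ) * α i1) - x| ≤ η) ?_ ?_ ?_ ?_
  · exact ⟨0, fun x hx => absurd hx (Set.notMem_empty x)⟩
  · rintro s t hst ⟨C, hC⟩
    exact ⟨C, fun x hx => hC x (hst hx)⟩
  · rintro s t ⟨C, hC⟩ ⟨C', hC'⟩
    refine ⟨max C C', fun x hx => ?_⟩
    rcases hx with hx | hx
    · obtain ⟨a, b, h1, h2, h3⟩ := hC x hx
      exact ⟨a, b, h1.trans (le_max_left _ _), h2.trans (le_max_left _ _), h3⟩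
    · obtain ⟨a, b, h1, h2, h3⟩ := hC' x hx
      exact ⟨a, b, h1.trans (le_max_right _ _), h2.trans (le_max_right _ _), h3⟩
  · intro x _
    obtain ⟨a, b, hab⟩ := kron_dense hα x (η / 2) (by linarith)
    refine ⟨ball x (η / 2), mem_nhdsWithin_of_mem_nhds (ball_mem_nhds _ (by linarith)),
      max |(a : ℝ)| |(b : ℝ)|, fun y hy => ⟨a, b, le_max_left _ _, le_max_right _ _, ?_⟩⟩
    rw [mem_ball, Real.dist_eq] at hy
    have : 2 * Real.pi * ((a : ℝ) * α i0 + (b : ℝ) * α i1) - y =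
      (2 * Real.pi * ((a : ℝ) * α i0 + (b : ℝ) * α i1) - x) - (y - x) := by
      ring
    rw [this]
    refine (abs_sub _ _).trans ?_
    linarith

theorem kron {n : ℕ} {α : Fin n → ℝ} {i1 i0 : Fin n} (h01 : i0 ≠ i1) (hα : Irrational (α i0 / α i1)) (Θ η : ℝ) (hη : 0 < η) :
    ∃ C : ℝ, 0 ≤ C ∧ ∀ (k : Fin n → ℝ) (θ : ℝ), |θ| ≤ Θ → ∃ M : Fin n → ℤ,
      (∀ l, |2 * Real.pi * (M l : ℝ) - k l| ≤ C) ∧
      |∑ l, α l * (2 * Real.pi * (M l : ℝ) - k l) - θ| ≤ η := by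
  have hpi := Real.pi_pos
  set a0 : ℝ := ∑ l, |α l| with ha0
  obtain ⟨C, hC⟩ := kron_net hα (Θ + Real.pi * a0) η hη
  refine ⟨Real.pi + 2 * Real.pi * |C|, by positivity, fun k θ hθ => ?_⟩
  set M0 : Fin n → ℤ := fun l => round (k l / (2 * Real.pi)) with hM0
  have hM0b : ∀ l, |2 * Real.pi * (M0 l : ℝ) - k l| ≤ Real.pi := by
    intro l
    have h1 := abs_sub_round (k l / (2 * Real.pi))
    have h2 : 2 * Real.pi * (M0 l : ℝ) - k l = -(2 * Real.pi) * (k l / (2 * Real.pi) - (M0 l : ℝ)) := by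
      field_simp
      ring
    rw [h2, abs_mul, abs_neg, abs_of_pos (by positivity : (0 : ℝ) < 2 * Real.pi)]
    calc 2 * Real.pi * |k l / (2 * Real.pi) - (M0 l : ℝ)| ≤ 2 * Real.pi * (1 / 2) := by
          gcongr
      _ = Real.pi := by ring
  set x : ℝ := θ - ∑ l, α l * (2 * Real.pi * (M0 l : ℝ) - k l) with hx
  have hxb : x ∈ Icc (-(Θ + Real.pi * a0)) (Θ + Real.pi * a0) := by
    rw [mem_Icc, ← abs_le]
    have h1 : |∑ l, α l * (2 * Real.pi * (M0 l : ℝ) - k l)| ≤ Real.pi * a0 := by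
      refine (Finset.abs_sum_le_sum_abs _ _).trans ?_
      rw [ha0, Finset.mul_sum]
      refine Finset.sum_le_sum fun l _ => ?_
      rw [abs_mul, mul_comm]
      exact mul_le_mul_of_nonneg_right (hM0b l) (abs_nonneg _)
    exact (abs_sub _ _).trans (by linarith)
  obtain ⟨a, b, hab1, hab2, hab3⟩ := hC x hxb
  set d : Fin n → ℤ := fun l => (if l = i0 then a else 0) + (if l = i1 then b else 0) with hd
  have hdb : ∀ l, |(d l : ℝ)| ≤ |C| := by
    intro l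
    have hC1 : |(a : ℝ)| ≤ |C| := hab1.trans (le_abs_self _)
    have hC2 : |(b : ℝ)| ≤ |C| := hab2.trans (le_abs_self _)
    rw [hd]
    by_cases h0 : l = i0
    · have h1 : l ≠ i1 := by rw [h0]; exact h01
      simp [h0, h01, hC1]
    · by_cases h1 : l = i1
      · simp [h1, h01.symm, hC2]
      · simp [h0, h1]
  have hdsum : ∑ l, α l * (d l : ℝ) = (a : ℝ) * α i0 + (b : ℝ) * α i1 := by
    rw [hd]
    push_cast
    simp only [mul_add, Finset.sum_add_distrib, mul_ite, mul_zero, Finset.sum_ite_eq',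
      Finset.mem_univ, if_true]
    ring
  refine ⟨fun l => M0 l + d l, fun l => ?_, ?_⟩
  · have h1 : 2 * Real.pi * (((M0 l + d l : ℤ)) : ℝ) - k l =
        (2 * Real.pi * (M0 l : ℝ) - k l) + 2 * Real.pi * (d l : ℝ) := by
      push_cast; ring
    rw [h1]
    refine (abs_add_le _ _).trans (add_le_add (hM0b l) ?_)
    rw [abs_mul, abs_of_pos (by positivity : (0 : ℝ) < 2 * Real.pi)]
    exact mul_le_mul_of_nonneg_left (hdb l) (by positivity)
  · have h1 : ∑ l, α l * (2 * Real.pi * (((M0 l + d l : ℤ)) : ℝ) - k l) - θ =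
        2 * Real.pi * ((a : ℝ) * α i0 + (b : ℝ) * α i1) - x := by
      rw [← hdsum, hx, Finset.mul_sum]
      have : ∑ l, α l * (2 * Real.pi * (((M0 l + d l : ℤ)) : ℝ) - k l) =
          ∑ l, α l * (2 * Real.pi * (M0 l : ℝ) - k l) +
          ∑ l, 2 * Real.pi * (α l * (d l : ℝ)) := by
        rw [← Finset.sum_add_distrib]
        refine Finset.sum_congr rfl fun l _ => ?_
        push_cast
        ring
      rw [this]
      ring
    rw [h1]
    exact hab3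

theorem fsolveI : Pool.Agent.H664.FH.S_fsolveI := by
  intro n α e F zs ε C0 Λ A δ k r w σ L Li hF hab he hε hΛ hAΛ hδ hev hlim hre hnc
  obtain ⟨i1, i0, hαi1, hα⟩ := hab
  have h01 : i0 ≠ i1 := by
    rintro rfl
    exact hα ⟨1, by rw [div_self hαi1]; simp⟩
  have hzs : zs ∈ ball zs ε := mem_ball_self hε
  have hΛ0 : ∀ᶠ j in F, 0 < Λ j := hΛ.eventually_gt_atTop 0
  have hC0 : 0 ≤ C0 := by
    obtain ⟨j, ⟨-, -, -, -, -, -, h⟩, hj⟩ := (hev.and hΛ0).exists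
    exact (norm_nonneg _).trans (h 0 (mem_ball_self hj) zs hzs)
  have hloc : TendstoLocallyUniformlyOn (fun j => L j 0) Li F (ball zs ε) := by
    refine conv (C0 := C0) ?_ hlim
    filter_upwards [hev, hΛ0] with j hj hj0
    obtain ⟨-, -, -, -, -, h1, h2⟩ := hj
    refine ⟨?_, h2 0 (mem_ball_self hj0)⟩
    have h3 : DifferentiableOn ℂ (fun z : ℂ => ((0 : Fin n → ℂ), z)) (ball zs ε) := by fun_prop
    exact h1.comp h3 fun z hz => ⟨mem_ball_self hj0, hz⟩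
  have hLi : DifferentiableOn ℂ Li (ball zs ε) := by
    refine hloc.differentiableOn ?_ isOpen_ball
    filter_upwards [hev, hΛ0] with j hj hj0
    obtain ⟨-, -, -, -, -, h1, h2⟩ := hj
    have h3 : DifferentiableOn ℂ (fun z : ℂ => ((0 : Fin n → ℂ), z)) (ball zs ε) := by fun_prop
    exact h1.comp h3 fun z hz => ⟨mem_ball_self hj0, hz⟩
  set Φ : ℂ → ℂ := fun z => ∑ l, (α l : ℂ) * Li z l with hΦ
  have hΦd : DifferentiableOn ℂ Φ (ball zs ε) :=
    DifferentiableOn.fun_sum fun l _ => (differentiableOn_pi.mp hLi l).const_mul _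
  have hΦre : (Φ zs).re = 0 := by
    rw [hΦ]
    simp only [Complex.re_sum, Complex.re_ofReal_mul]
    exact hre
  obtain ⟨z0, hz0, hz0re, hD⟩ := point hε hΦd hΦre hnc
  set D := deriv Φ z0 with hDdef
  have hDn : 0 < ‖D‖ := norm_pos_iff.mpr hD
  obtain ⟨ε₁, hε₁, hsub, hlin⟩ : ∃ ε₁ : ℝ, 0 < ε₁ ∧ closedBall z0 ε₁ ⊆ ball zs ε ∧
      ∀ z ∈ closedBall z0 ε₁, ‖Φ z - Φ z0 - D * (z - z0)‖ ≤ ‖D‖ / 20 * ‖z - z0‖ := by
    have hda : HasDerivAt Φ D z0 := ((hΦd z0 hz0).differentiableAt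
      (isOpen_ball.mem_nhds hz0)).hasDerivAt
    have h1 := (hasDerivAt_iff_isLittleO.mp hda).def (c := ‖D‖ / 20) (by positivity)
    have h2 := h1.and (isOpen_ball.mem_nhds hz0)
    obtain ⟨η, hη, hηb⟩ := Metric.eventually_nhds_iff.mp h2
    refine ⟨η / 2, by positivity, fun z hz => ?_, fun z hz => ?_⟩
    · rw [mem_closedBall] at hz
      exact (hηb (by linarith)).2
    · rw [mem_closedBall] at hz
      have := (hηb (by linarith : dist z z0 < η)).1
      rw [smul_eq_mul, mul_comm (z - z0)] at this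
      exact this
  obtain ⟨C₁, hC₁, hkron⟩ := kron h01 hα (C0 + ‖Φ z0‖) (‖D‖ * ε₁ / 40) (by positivity)
  set a : ℝ := ∑ l, |α l| with ha
  have ha0 : 0 ≤ a := Finset.sum_nonneg fun l _ => abs_nonneg _
  set CQ : ℝ := 1 + a * ‖e‖ with hCQ
  have hCQ0 : 0 < CQ := by positivity
  set ρ : ℝ := 8 * (CQ * (C0 + C₁)) + 9 with hρ
  have hρ0 : 0 < ρ := by positivity
  set τ : ℝ := ‖D‖ * ε₁ / (40 * (2 * a + 2)) with hτ
  have hτ0 : 0 < τ := by positivity
  have hτ1 : (2 * a + 2) * τ = ‖D‖ * ε₁ / 40 := by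
    rw [hτ]; field_simp
  have e1 : ∀ᶠ j in F, ∀ z ∈ closedBall z0 ε₁, ‖L j 0 z - Li z‖ ≤ τ := by
    have h1 := (tendstoLocallyUniformlyOn_iff_forall_isCompact isOpen_ball).mp hloc
      (closedBall z0 ε₁) hsub (isCompact_closedBall _ _)
    have h2 := (Metric.tendstoUniformlyOn_iff.mp h1) τ hτ0
    filter_upwards [h2] with j hj z hz
    have := hj z hz
    rw [dist_comm, dist_eq_norm] at this
    exact this.le
  have hlim2 : Tendsto (fun j => (CQ * A j + ρ) / Λ j) F (𝓝 0) := by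
    have h1 : Tendsto (fun j => CQ * (A j / Λ j) + ρ / Λ j) F (𝓝 (CQ * 0 + 0)) :=
      (hAΛ.const_mul CQ).add (tendsto_const_nhds.div_atTop hΛ)
    rw [mul_zero, add_zero] at h1
    refine h1.congr fun j => ?_
    ring
  have e2 : ∀ᶠ j in F, (CQ * A j + ρ) / Λ j < min 1 (τ / (2 * C0 + 1)) := by
    have : (0 : ℝ) < min 1 (τ / (2 * C0 + 1)) := lt_min one_pos (by positivity)
    exact hlim2.eventually_lt_const this
  have e3 : ∀ᶠ j in F, δ j < τ := hδ.eventually_lt_const hτ0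
  filter_upwards [hev, hΛ0, e1, e2, e3] with j hj hj0 hj1 hj2 hj3
  obtain ⟨hw, hwb, hσ, hβre, hβim, hLd, hLb⟩ := hj
  set β : ℂ := r j - ∑ l, (α l : ℂ) * σ j l with hβ
  obtain ⟨M, hM1, hM2⟩ := hkron (k j) (β.im - (Φ z0).im) (by
    refine (abs_sub _ _).trans (add_le_add hβim (Complex.abs_im_le_norm _)))
  have hQσ : ‖Qp α e (σ j)‖ ≤ CQ * A j :=
    (norm_Qp α e (σ j)).trans (mul_le_mul_of_nonneg_left hσ hCQ0.le)
  have hΛj : CQ * A j + ρ < Λ j := by
    have := hj2.trans_le (min_le_left _ _)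
    rwa [div_lt_one hj0] at this
  have hsub' : ball z0 ε₁ ⊆ ball zs ε := ball_subset_closedBall.trans hsub
  have hQρ : ‖Qp α e (σ j)‖ + ρ ≤ Λ j := by linarith
  refine ⟨M, step (r := r j) he hw hLd hLb hε₁ hsub' D hD M C₁ hM1 ρ hρ hρ0 hQρ ?_⟩
  · intro u hu hun z hz
    have hz' : z ∈ closedBall z0 ε₁ := ball_subset_closedBall hz
    have hzz : z ∈ ball zs ε := hsub hz'
    have b1 : ‖∑ l, (α l : ℂ) * (L j u z - L j 0 z) l‖ ≤ a * τ := by
      refine (norm_dot α _).trans (mul_le_mul_of_nonneg_left ?_ ha0)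
      have h1 : DifferentiableOn ℂ (fun u => L j u z) (ball 0 (Λ j)) := by
        have h3 : DifferentiableOn ℂ (fun u : Fin n → ℂ => (u, z)) (ball 0 (Λ j)) := by fun_prop
        exact hLd.comp h3 fun u hu => ⟨hu, hzz⟩
      have h2 := schwarz h1 (fun u hu => hLb u hu z hzz) hu
      refine h2.trans ?_
      have h4 : ‖u‖ ≤ CQ * A j + ρ := hun.trans (by linarith)
      have h5 : ‖u‖ / Λ j ≤ τ / (2 * C0 + 1) := by
        refine le_trans ?_ (hj2.trans_le (min_le_right _ _)).le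
        gcongr
      calc 2 * C0 * ‖u‖ / Λ j = 2 * C0 * (‖u‖ / Λ j) := by ring
        _ ≤ 2 * C0 * (τ / (2 * C0 + 1)) := by gcongr
        _ ≤ τ := by
            rw [mul_div_assoc', div_le_iff₀ (by positivity)]
            nlinarith
    have b2 : ‖∑ l, (α l : ℂ) * (L j 0 z - Li z) l‖ ≤ a * τ :=
      (norm_dot α _).trans (mul_le_mul_of_nonneg_left (hj1 z hz') ha0)
    have b3 : ‖Φ z - Φ z0 - D * (z - z0)‖ ≤ ‖D‖ * ε₁ / 20 := by
      refine (hlin z hz').trans ?_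
      rw [mem_closedBall, dist_eq_norm] at hz'
      calc ‖D‖ / 20 * ‖z - z0‖ ≤ ‖D‖ / 20 * ε₁ := by gcongr
        _ = _ := by ring
    have b4 : ‖Φ z0 + Complex.I *
        ((∑ l, α l * (2 * Real.pi * (M l : ℝ) - k j l) : ℝ) : ℂ) - β‖ ≤ τ + ‖D‖ * ε₁ / 40 := by
      refine (Complex.norm_le_abs_re_add_abs_im _).trans (add_le_add ?_ ?_)
      · rw [Complex.sub_re, Complex.add_re, hz0re, Complex.mul_re, Complex.I_re, Complex.I_im,
          Complex.ofReal_im, zero_mul, mul_zero, sub_zero, add_zero, zero_sub, abs_neg]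
        exact hβre.trans hj3.le
      · rw [Complex.sub_im, Complex.add_im, Complex.mul_im, Complex.I_re, Complex.I_im,
          Complex.ofReal_im, zero_mul, one_mul, zero_add, Complex.ofReal_re]
        refine le_trans (le_of_eq ?_) hM2
        congr 1
        ring
    have b5 : ‖w j u + ∑ l, (α l : ℂ) * u l - r j‖ ≤ τ := (hwb u hu).trans hj3.le
    have hsum : (∑ l, (α l : ℂ) * L j u z l) +
        Complex.I * ((∑ l, α l * (2 * Real.pi * (M l : ℝ) - k j l) : ℝ) : ℂ)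
        - (r j - ∑ l, (α l : ℂ) * σ j l) - (w j u + ∑ l, (α l : ℂ) * u l - r j) - D * (z - z0) =
        ∑ l, (α l : ℂ) * (L j u z - L j 0 z) l + ∑ l, (α l : ℂ) * (L j 0 z - Li z) l +
        (Φ z - Φ z0 - D * (z - z0)) + (Φ z0 + Complex.I *
        ((∑ l, α l * (2 * Real.pi * (M l : ℝ) - k j l) : ℝ) : ℂ) - β) -
        (w j u + ∑ l, (α l : ℂ) * u l - r j) := by
      simp only [Pi.sub_apply, mul_sub, Finset.sum_sub_distrib]
      rw [hβ, hΦ]
      ring
    rw [hsum]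
    have c1 := norm_sub_le (∑ l, (α l : ℂ) * (L j u z - L j 0 z) l +
        ∑ l, (α l : ℂ) * (L j 0 z - Li z) l +
        (Φ z - Φ z0 - D * (z - z0)) + (Φ z0 + Complex.I *
        ((∑ l, α l * (2 * Real.pi * (M l : ℝ) - k j l) : ℝ) : ℂ) - β))
        (w j u + ∑ l, (α l : ℂ) * u l - r j)
    have c2 := norm_add_le (∑ l, (α l : ℂ) * (L j u z - L j 0 z) l +
        ∑ l, (α l : ℂ) * (L j 0 z - Li z) l + (Φ z - Φ z0 - D * (z - z0))) (Φ z0 + Complex.I *
        ((∑ l, α l * (2 * Real.pi * (M l : ℝ) - k j l) : ℝ) : ℂ) - β)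
    have c3 := norm_add_le (∑ l, (α l : ℂ) * (L j u z - L j 0 z) l +
        ∑ l, (α l : ℂ) * (L j 0 z - Li z) l) (Φ z - Φ z0 - D * (z - z0))
    have c4 := norm_add_le (∑ l, (α l : ℂ) * (L j u z - L j 0 z) l)
        (∑ l, (α l : ℂ) * (L j 0 z - Li z) l)
    linarith

end Pool.Agent.H282.FH
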